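import Pool.Agent.H322.AM.Num

/-!
# A sharp averaged form of the non-symmetric Mahler inequality

For every convex body `K` of `ℝⁿ` the harmonic mean over `z ∈ K` of the Mahler volumes
`M_∞(K - z) = n! |K| |(K - z)°|` is at least `(2n+1)! / (n!)²` (which is about `4ⁿ`, while the
minimum over `z` can be `(n+1)^(n+1) / n!`, about `eⁿ`), with equality for simplices.  The same bound
holds for `M_p`, `p < ∞`; it implies that for `p ≥ 10` the conjectured inequality for `M_p(K - z)`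
holds for all `z ∈ K` outside of an exceptional set of relative volume at most `(49/50)ⁿ`.

Sketch of the proof.  Let `L` be a convex body and `C ⊆ ℝ^{n+1}` the cone over `L × {1}`.  The set
`P` of the differences `A - B`, `A, B ∈ C`, `A₀ + B₀ ≤ 1`, is a symmetric convex body and

`(∫_C e^(-x₀))² ≥ ∫ e^(-‖w‖_P) dw ∫_C e^(-2 x₀)`

(write `w = A_w - B_w` optimally and translate by elements of `C`), which is
`|P| ≤ 2^(n+1) |L| / (n+1)`.  Mahler's inequality for the symmetric body `P` (library, `H712R2`)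
gives `|L| |P°| ≥ 2^(n+1) / n!`.  For `L = (K - z)°` the slices of `P°` are, up to translations and
the factor 2, the sets `c K ∩ (z - (1 - c) K)`, `0 < c < 1`, which is the pointwise inequality

`n! |(K - z)°| ∫_0^1 |c K ∩ (z - (1 - c) K)| dc ≥ 1`.

Integration over `z` gives the averaged inequality, since
`∫_0^1 |c K| |(1 - c) K| dc = (n!)² / (2n+1)! |K|²`.
-/

set_option autoImplicit false

noncomputable section

open MeasureTheory Set
open scoped ENNReal Pointwise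

namespace Pool.Agent.Results.MP_5f4cdd_gt.AveragedMahler

variable {n : ℕ}

/-- convex bodies in `ℝⁿ`, in any position -/
def Body (K : Set (Fin n → ℝ)) : Prop := Convex ℝ K ∧ IsCompact K ∧ (interior K).Nonempty

/-- the translate `K - z` -/
def shift (K : Set (Fin n → ℝ)) (z : Fin n → ℝ) : Set (Fin n → ℝ) := (fun x => x - z) '' K

/-- the polar body `K°` -/
def polar (K : Set (Fin n → ℝ)) : Set (Fin n → ℝ) := {y | ∀ x ∈ K, ∑ i, x i * y i ≤ 1}

/-- the Mahler volume `M_∞(K) = |K| ∫ exp (-h_K)` -/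
def mahlerInf (K : Set (Fin n → ℝ)) : ℝ≥0∞ :=
  volume K * ∫⁻ y : Fin n → ℝ, ENNReal.ofReal
    (Real.exp (-(sSup ((fun x : Fin n → ℝ => ∑ i, x i * y i) '' K))))

/-- the `L^p` Mahler volume `M_p(K) = |K| ∫ exp (-h_{p,K})`, where `exp (-h_{p,K}(y))` is the power
`-1/p` of the average of `exp (p ⟨x, y⟩)` over `x ∈ K` -/
def mahlerLp (p : ℝ) (K : Set (Fin n → ℝ)) : ℝ≥0∞ :=
  volume K * ∫⁻ y : Fin n → ℝ, ENNReal.ofReal
    (((∫ x in K, Real.exp (p * ∑ i, x i * y i)) / (volume K).toReal) ^ (-(1 / p)))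

/-- the standard simplex -/
def Simplex (n : ℕ) : Set (Fin n → ℝ) := {z | (∀ i, 0 ≤ z i) ∧ ∑ i, z i ≤ 1}

/-- `∫_0^1 |c K ∩ (z - (1 - c) K)| dc` -/
def meanMeet (K : Set (Fin n → ℝ)) (z : Fin n → ℝ) : ℝ≥0∞ :=
  ∫⁻ c in Ioo (0 : ℝ) 1, volume ((c • K) ∩ {x | z - x ∈ (1 - c) • K})

lemma meanMeet_eq (K : Set (Fin n → ℝ)) (z : Fin n → ℝ) : meanMeet K z =
    ∫⁻ c in Ioo (0 : ℝ) 1, volume (Pool.Agent.H322.AM.cs K z c) := by
  refine setLIntegral_congr_fun measurableSet_Ioo fun c hc => ?_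
  have hc0 : c ≠ 0 := hc.1.ne'
  have hc1 : 1 - c ≠ 0 := by linarith [hc.2]
  congr 1
  ext x
  show (x ∈ c • K ∧ z - x ∈ (1 - c) • K) ↔ (c⁻¹ • x ∈ K ∧ (1 - c)⁻¹ • (z - x) ∈ K)
  rw [mem_smul_set_iff_inv_smul_mem₀ hc0, mem_smul_set_iff_inv_smul_mem₀ hc1]

/-- **The sharp averaged non-symmetric Mahler inequality**, for all dimensions `n` and all convex
bodies `K` of `ℝⁿ`:

1. the pointwise inequality `n! |(K - z)°| ∫_0^1 |c K ∩ (z - (1 - c) K)| dc ≥ 1`, `z ∈ int K`;
2. the average over `z ∈ K` of `1 / M_∞(K - z)` is at most `(n!)² / (2n+1)!`;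
3. the same holds for `1 / M_p(K - z)`, `p > 0`;
4. the set of the `z ∈ K` with `M_∞(K - z) < t` has relative volume at most `t (n!)² / (2n+1)!`;
5. for each `p ≥ 10` the conjectured inequality holds for `K - z` for all `z ∈ K` outside of a set
   of relative volume at most `(49/50)ⁿ`;
6. there is equality in 1 and 2 if `K` is the simplex. -/
theorem result (n : ℕ) (K : Set (Fin n → ℝ)) (hK : Body K) :
    (∀ z ∈ interior K, 1 ≤ (n.factorial : ℝ≥0∞) * volume (polar (shift K z)) * meanMeet K z) ∧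
    (∫⁻ z in K, (mahlerInf (shift K z))⁻¹ ≤
      ENNReal.ofReal ((n.factorial : ℝ) ^ 2 / (2 * n + 1).factorial) * volume K) ∧
    (∀ p : ℝ, 0 < p → ∫⁻ z in K, (mahlerLp p (shift K z))⁻¹ ≤
      ENNReal.ofReal ((n.factorial : ℝ) ^ 2 / (2 * n + 1).factorial) * volume K) ∧
    (∀ t : ℝ≥0∞, volume {z ∈ K | mahlerInf (shift K z) < t} ≤
      t * (ENNReal.ofReal ((n.factorial : ℝ) ^ 2 / (2 * n + 1).factorial) * volume K)) ∧
    (∀ p : ℝ, 10 ≤ p → volume {z ∈ K | mahlerLp p (shift K z) <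
        ⨅ x ∈ Simplex n, mahlerLp p (shift (Simplex n) x)} ≤
      ENNReal.ofReal ((49 / 50) ^ n) * volume K) ∧
    (∀ z ∈ interior (Simplex n),
      (n.factorial : ℝ≥0∞) * volume (polar (shift (Simplex n) z)) * meanMeet (Simplex n) z = 1) ∧
    (∫⁻ z in Simplex n, (mahlerInf (shift (Simplex n) z))⁻¹ =
      ENNReal.ofReal ((n.factorial : ℝ) ^ 2 / (2 * n + 1).factorial) * volume (Simplex n)) := by
  obtain ⟨hv, hc, hi⟩ := hK
  refine ⟨fun z hz => ?_, Pool.Agent.H322.AM.average hc hv hi,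
    fun p hp => Pool.Agent.H322.AM.average_p hc hv hi hp, Pool.Agent.H322.AM.most hc hv hi,
    fun p hp => Pool.Agent.H322.AM.exc_p hc hv hi hp, fun z hz => ?_,
    Pool.Agent.H322.AM.average_eq n⟩
  · rw [meanMeet_eq]
    exact Pool.Agent.H322.AM.pointwise hc hv hz
  · rw [meanMeet_eq]
    exact Pool.Agent.H322.AM.pointwise_eq hz

end Pool.Agent.Results.MP_5f4cdd_gt.AveragedMahler
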