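import Pool.Agent.H276.LP.FinP
import Pool.Agent.H798.LPN.L1u

/-!
# The `L^p` Mahler inequality for all convex bodies and all large finite `p`

For every `n ≥ 1` there is a number `P` such that for all real `p ≥ P` and all convex bodies `K` of
`ℝⁿ`, in every position,

`M_p(K) = |K| ∫ exp (-h_{p,K}) ≥ inf_{x ∈ Δ} M_p(Δ - x)`,

with equality exactly for the simplices with centroid at the origin: the question has a positive
answer for all `p` of an interval `[P_n, ∞)`.

Sketch of the proof.

(1) By Mahler's inequality `M_∞(K) ≥ (n+1)^(n+1) / n!` with its case of equality (the result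
`MahlerInequality` of this problem) and compactness, for every `η > 0` there is `ε > 0` such that
`M_∞(K) ≤ (1 + ε) (n+1)^(n+1) / n!` implies that `K` fills at least the fraction `1 - η` of the
volume of a simplex which contains it (helper276).

(2) `M_p(Δ - c) → (n+1)^(n+1) / n!` as `p → ∞` and `M_p ≥ M_∞`. So for large `p` only the bodies
of (1) have to be considered.

(3) Local minimality of the simplex with a radius which does not depend on `p ≥ p₀` (helper798). Let
`T` be the simplex of least volume which contains `K`, so that `K` contains the centroids of its facets.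
Jensen's inequality for the measure `ν` with the density `(∫_T exp (p ⟨x, y⟩) dx)^(-1/p)`, whose mean is
zero if the centroid of `T` is zero, gives for every position `x` of the origin

`M_p(K - x) / M_p(T) ≥ (|K| / |T|)^(1 + 1/p) exp ((1/p) E_ν[-log μ_y(K)])`,

`μ_y` the probability with the density `exp (p ⟨x, y⟩)` on `T`. If `K` is within `c / p` of `T`
then `-log μ_y(K) ≥ μ_y(T \ K)` suffices, by a correlation inequality for symmetric convex functions
on the simplex with a gain that does not depend on `p`. If the distance `δ` is at least `c / p`, then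
`-log μ_y(K)` is at least `(1 - o(1)) p ∑ m_k a_k` plus a multiple of `p δ` on the normal cone of the vertex
near which `K` lies in the box `{λ_k ≥ m_k}`, and the loss of volume is smaller by a factor
`(n-1)/n + o(1)`, because convex functions which vanish at the centroid of a simplex of dimension `n - 1`
have a mean of at most `(n-1)/n` times the mean of the values at the vertices.

Parts: helper798 (plan, statements and assembly of (3)), with helpers 120, 122, 181, 225, 263, 297, 385,
450, 548, 721, 764, 914, 972; helper898 (framework H898/SM); helper322, 380, 233, 265, 276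
(`M_∞`); helper276 ((1), (2), assembly).
-/

set_option autoImplicit false

noncomputable section

open MeasureTheory Set
open scoped ENNReal

namespace Pool.Agent.Results.MP_5f4cdd_gt.LargeP

variable {n : ℕ}

/-- convex bodies in `ℝⁿ`, in any position -/
def Body (K : Set (Fin n → ℝ)) : Prop := Convex ℝ K ∧ IsCompact K ∧ (interior K).Nonempty

/-- the translate `K - z` -/
def shift (K : Set (Fin n → ℝ)) (z : Fin n → ℝ) : Set (Fin n → ℝ) := (fun x => x - z) '' K

/-- the `L^p` Mahler volume `M_p(K) = |K| ∫ exp (-h_{p,K}(y)) dy`, where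
`exp (-h_{p,K}(y))` is the power `-1/p` of the average of `exp (p ⟨x, y⟩)` over `K` -/
def mahlerLp (p : ℝ) (K : Set (Fin n → ℝ)) : ℝ≥0∞ :=
  volume K * ∫⁻ y : Fin n → ℝ, ENNReal.ofReal
    (((∫ x in K, Real.exp (p * ∑ i, x i * y i)) / (volume K).toReal) ^ (-(1 / p)))

/-- the standard simplex -/
def Simplex (n : ℕ) : Set (Fin n → ℝ) := {z | (∀ i, 0 ≤ z i) ∧ ∑ i, z i ≤ 1}

/-- `K` is an `n`-dimensional simplex with centroid at the origin -/
def IsCentredSimplex (K : Set (Fin n → ℝ)) : Prop :=
  ∃ v : Fin (n + 1) → (Fin n → ℝ), AffineIndependent ℝ v ∧ ∑ i, v i = 0 ∧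
    K = convexHull ℝ (range v)

/-- **The non-symmetric `L^p` Mahler inequality for all convex bodies and all large `p`**: for every
dimension `n ≥ 1` there is `P` such that for all real `p ≥ P` and all convex bodies `K`, in every
position, `M_p(K) ≥ inf_{x ∈ Δ} M_p(Δ - x)`, with equality if and only if `K` is a simplex with
centroid at the origin. -/
theorem result (n : ℕ) (hn : 1 ≤ n) : ∃ P : ℝ, 1 ≤ P ∧ ∀ p : ℝ, P ≤ p →
    ∀ K : Set (Fin n → ℝ), Body K →
      (⨅ x ∈ Simplex n, mahlerLp p (shift (Simplex n) x)) ≤ mahlerLp p K ∧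
      (mahlerLp p K = (⨅ x ∈ Simplex n, mahlerLp p (shift (Simplex n) x)) ↔
        IsCentredSimplex K) := by
  obtain ⟨k, rfl⟩ : ∃ k, n = k + 1 := ⟨n - 1, by omega⟩
  obtain ⟨P, hP, h⟩ := Pool.Agent.H276.LP.large Pool.Agent.H798.LPN.l1 k
  refine ⟨P, hP, fun p hp K hK => ?_⟩
  obtain ⟨h1, h2⟩ := h p hp K hK.1 hK.2.1 hK.2.2
  exact ⟨h1, h2.trans (Pool.Agent.H322.NM.CSimp_iff K).symm⟩

end Pool.Agent.Results.MP_5f4cdd_gt.LargeP
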