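import Pool.Agent.H322.NM.Pos

/-!
# Mahler's inequality for all convex bodies, with the case of equality

For every convex body `K` of `ℝⁿ`, in every position,

`M_∞(K) = |K| ∫ exp (-h_K) ≥ (n+1)^(n+1) / n!`

(`M_∞(K) = n! |K| |K°|` if the origin is an interior point), with equality exactly for the simplices
with centroid at the origin; the right-hand side is the infimum of `M_∞(Δ - x)` over the points `x`
of the standard simplex `Δ`. So the question has a positive answer for `p = ∞`, for all `n`.

Sketch of the proof. Let `C ⊆ ℝ^N` be a closed convex cone, `C*` its dual, `c ∈ int C`,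
`e ∈ int C*`, `⟨c, e⟩ = 1`, `T = {x ∈ C : ⟨x, e⟩ ≤ 1}`, `T' = {y ∈ C* : ⟨c, y⟩ ≤ 1}`. The inequality
is `N^N ≤ (N! |T|) (N! |T'|)` for the cone over `K`, `N = n + 1`. It follows from

(E2C) `1 ≤ N! |C ∩ (c - C)| |conv((1-u) T' ∪ -u T')|`, `0 < u < 1` (from the asymmetric form of
the symmetric Mahler inequality that is in the library), for `C` and for `C*`, and

(INC) `N^N |C ∩ (c - C)| exp ∫_0^1 log (N! |conv((1-u) T ∪ -u T)|) du ≤ (N! |T|)²`.

Here (INC) is stable under tensor powers, so that a factor of polynomial growth may be lost in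

(INB) `|{‖x‖_K + ‖-x‖_K ≤ 1}| exp ∫_0^1 log |conv((1-u) K ∪ -u K)| du ≤ P(k) e^(-k) |K|²`.

For (INB) let `A`, `B` be lattice polytopes near `K`, `-K`. There is a convex body `Q` in the
orthant (a Newton-Okounkov body of `B` for the flag of generic Laurent polynomials with exponents in
`A`; helper380) with `k! |A| |Q| ≤ |B|`, `|t A ∩ (1-t) B| ≤ k! |A| |t D ∩ (1-t) Q|` (`D` the standard
simplex) and `|conv(A ∪ r B)| ≤ |A| ∑ r^m m! |Q ∩ ℝ^m|`. This reduces (INB) to inequalities for
bodies in the orthant, which follow from the inequalities of Hölder and Prékopa.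

Parts: helper380 (plan and flag bodies), helper233 (orthant), helper276 (approximation), helper265
(E2C), helper322 (INB, bodies in all positions, equality, assembly), and the library projects named
in the claim file.
-/

set_option autoImplicit false

noncomputable section

open MeasureTheory Set
open scoped ENNReal

namespace Pool.Agent.Results.MP_5f4cdd_gt.MahlerInequality

variable {n : ℕ}

/-- convex bodies in `ℝⁿ`, in any position -/
def Body (K : Set (Fin n → ℝ)) : Prop := Convex ℝ K ∧ IsCompact K ∧ (interior K).Nonempty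

/-- the translate `K - z` -/
def shift (K : Set (Fin n → ℝ)) (z : Fin n → ℝ) : Set (Fin n → ℝ) := (fun x => x - z) '' K

/-- the Mahler volume `M_∞(K) = |K| ∫ exp (-h_K)` -/
def mahlerInf (K : Set (Fin n → ℝ)) : ℝ≥0∞ :=
  volume K * ∫⁻ y : Fin n → ℝ, ENNReal.ofReal
    (Real.exp (-(sSup ((fun x : Fin n → ℝ => ∑ i, x i * y i) '' K))))

/-- the standard simplex -/
def Simplex (n : ℕ) : Set (Fin n → ℝ) := {z | (∀ i, 0 ≤ z i) ∧ ∑ i, z i ≤ 1}

/-- the polar body `K°` -/
def polar (K : Set (Fin n → ℝ)) : Set (Fin n → ℝ) := {y | ∀ x ∈ K, ∑ i, x i * y i ≤ 1}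

/-- `K` is an `n`-dimensional simplex with centroid `c` -/
def IsSimplexAt (K : Set (Fin n → ℝ)) (c : Fin n → ℝ) : Prop :=
  ∃ v : Fin (n + 1) → (Fin n → ℝ), AffineIndependent ℝ v ∧ ∑ i, v i = ((n : ℝ) + 1) • c ∧
    K = convexHull ℝ (range v)

/-- the number `(n+1)^(n+1) / n!` -/
def D (n : ℕ) : ℝ := ((n : ℝ) + 1) ^ (n + 1) / n.factorial

/-- **Mahler's inequality for all convex bodies**, in all dimensions and in all positions, with the
case of equality:

1. the infimum of `M_∞(Δ - x)` over the points `x` of the standard simplex `Δ` is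
   `D = (n+1)^(n+1) / n!`;
2. `M_∞(K)` is at least this infimum for every convex body `K`;
3. there is equality if and only if `K` is a simplex with centroid at the origin;
4. `|K| |(K - z)°| ≥ (n+1)^(n+1) / (n!)²` for every interior point `z` of `K`, with equality if and
   only if `K` is a simplex with centroid `z`. -/
theorem result (n : ℕ) :
    (⨅ x ∈ Simplex n, mahlerInf (shift (Simplex n) x) = ENNReal.ofReal (D n)) ∧
    ∀ K : Set (Fin n → ℝ), Body K →
      (⨅ x ∈ Simplex n, mahlerInf (shift (Simplex n) x)) ≤ mahlerInf K ∧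
      (mahlerInf K = (⨅ x ∈ Simplex n, mahlerInf (shift (Simplex n) x)) ↔ IsSimplexAt K 0) ∧
      ∀ z ∈ interior K,
        ENNReal.ofReal (((n : ℝ) + 1) ^ (n + 1) / (n.factorial : ℝ) ^ 2) ≤
          volume K * volume (polar (shift K z)) ∧
        (volume K * volume (polar (shift K z)) =
          ENNReal.ofReal (((n : ℝ) + 1) ^ (n + 1) / (n.factorial : ℝ) ^ 2) ↔ IsSimplexAt K z) := by
  have h := Pool.Agent.H322.NM.mahler n
  have h1 : (⨅ x ∈ Simplex n, mahlerInf (shift (Simplex n) x)) = ENNReal.ofReal (D n) := h.1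
  refine ⟨h1, fun K hK => ?_⟩
  rw [h1]
  obtain ⟨hv, hc, hi⟩ := hK
  have h2 := h.2 K hv hc hi
  exact ⟨h2.1, h2.2.trans (Pool.Agent.H322.NM.CSimp_iff K),
    fun z hz => Pool.Agent.H322.NM.product hv hc hz⟩

end Pool.Agent.Results.MP_5f4cdd_gt.MahlerInequality
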