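import Pool.Agent.H898.SM.C9

set_option autoImplicit false

noncomputable section

open MeasureTheory Set
open scoped ENNReal

namespace Pool.Agent.Results.MP_5f4cdd_gt.SimplexLocalMin

/-- the `L^p` Mahler volume `|L| ∫ exp (-h_{p,L}(y)) dy` of a set `L ⊆ ℝ^n`, where
`exp (-h_{p,L}(y))` is the power `-1/p` of the average of `exp (p ⟨x, y⟩)` over `L` -/
def Mp {n : ℕ} (p : ℝ) (L : Set (Fin n → ℝ)) : ℝ≥0∞ := volume L *
  ∫⁻ y : Fin n → ℝ, ENNReal.ofReal
    (((∫ x in L, Real.exp (p * ∑ i, x i * y i)) / (volume L).toReal) ^ (-(1 / p)))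

/-- the standard simplex, the convex hull of `0, e_1, …, e_n` -/
def Simplex (n : ℕ) : Set (Fin n → ℝ) := {z | (∀ i, 0 ≤ z i) ∧ ∑ i, z i ≤ 1}

/-- the centroid of the standard simplex -/
def centroid (n : ℕ) : Fin n → ℝ := fun _ => 1 / ((n : ℝ) + 1)

/-- the conjectured minimum, the infimum of the `L^p` Mahler volume over the translates `Δ - x`,
`x ∈ Δ`, of the standard simplex `Δ` -/
def simplexInf (n : ℕ) (p : ℝ) : ℝ≥0∞ :=
  ⨅ x ∈ Simplex n, Mp p ((fun z : Fin n → ℝ => z - x) '' Simplex n)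

/-- **Local minimality of the simplex for the `L^p` Mahler volume**, in every dimension and for every
real `p > 0`: there are `η, γ > 0`, which depend only on `n` and `p`, such that every compact convex
set `K`, in any position, that fills at least the fraction `1 - η` of the volume of some simplex which
contains it satisfies the inequality of the conjecture, with equality exactly when `K` is a simplex
with centroid at the origin; moreover `K` lies in a simplex `S(Δ)` for which the inequality holds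
with an additional factor `1 + γ (1 - |K| / |S(Δ)|) + γ min (‖S⁻¹(0) - c‖, 1)²`, where `c` is the
centroid of the standard simplex `Δ`. -/
theorem result : ∀ n : ℕ, 1 ≤ n → ∀ p : ℝ, 0 < p → ∃ η γ : ℝ, 0 < η ∧ η < 1 ∧ 0 < γ ∧
    ∀ K : Set (Fin n → ℝ), Convex ℝ K → IsCompact K →
      (∃ S : (Fin n → ℝ) ≃ᵃ[ℝ] (Fin n → ℝ), K ⊆ S '' Simplex n ∧
        (1 - η) * volume.real (S '' Simplex n) ≤ volume.real K) →
      simplexInf n p ≤ Mp p K ∧
      (Mp p K = simplexInf n p ↔
        ∃ S : (Fin n → ℝ) ≃ᵃ[ℝ] (Fin n → ℝ), K = S '' Simplex n ∧ S (centroid n) = 0) ∧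
      ∃ S : (Fin n → ℝ) ≃ᵃ[ℝ] (Fin n → ℝ), K ⊆ S '' Simplex n ∧
        ENNReal.ofReal (1 + γ * (1 - volume.real K / volume.real (S '' Simplex n)) +
          γ * min ‖S.symm 0 - centroid n‖ 1 ^ 2) * simplexInf n p ≤ Mp p K := by
  intro n hn p hp
  obtain ⟨k, rfl⟩ : ∃ k, n = k + 1 := ⟨n - 1, by omega⟩
  exact H898.SM.final k hp

end Pool.Agent.Results.MP_5f4cdd_gt.SimplexLocalMin
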